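import Mathlib
import Pool.Agent.K3h89.QU.Decomp

/-!
# Quaternionic unimodular matroids are representable over `(ℍ, ⟨-1, p, q, r⟩)`

For all quaternions `p, q, r` such that `0, 1, p, q, r` are pairwise distinct points at mutual
distance one, a matroid (on a finite ground set) is representable over the skew partial field
`(ℍ, Sℍ)` if and only if it is representable over `(ℍ, ⟨-1, p, q, r⟩)`.
-/

set_option autoImplicit false

namespace Pool.Agent.Results.MP_a9b2cf_co.QUConjecture

open Quaternion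

universe u

section definitions

variable {R E : Type*} [Ring R]

/-- An elementary chain of the chain group `C`: a nonzero chain whose support does not properly
contain the support of a nonzero chain of `C`. -/
def IsElementary (C : Submodule R (E → R)) (c : E → R) : Prop :=
  c ∈ C ∧ c ≠ 0 ∧ ¬ ∃ c' ∈ C, c' ≠ 0 ∧ Function.support c' ⊂ Function.support c

/-- A `G`-primitive chain: all its entries lie in `G ∪ {0}`. -/
def IsPrimitive (G : Subgroup Rˣ) (c : E → R) : Prop :=
  ∀ e, c e = 0 ∨ ∃ g ∈ G, (g : R) = c e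

/-- `C` is a chain group over the skew partial field `(R, G)`: every elementary chain is
`r c'` with `r ∈ R` and `c'` a `G`-primitive chain of `C`. -/
def IsChainGroup (G : Subgroup Rˣ) (C : Submodule R (E → R)) : Prop :=
  ∀ c, IsElementary C c → ∃ r : R, ∃ c' ∈ C, IsPrimitive G c' ∧ c = r • c'

/-- The matroid `M` is representable over `(R, G)`: its cocircuits are the supports of the
elementary chains of a chain group over `(R, G)` on the ground set of `M`. -/
def IsRepresentable {α : Type*} (G : Subgroup Rˣ) (M : Matroid α) : Prop :=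
  ∃ C : Submodule R (M.E → R), IsChainGroup G C ∧
    ∀ X : Set M.E, M.IsCocircuit (Subtype.val '' X) ↔
      ∃ c, IsElementary C c ∧ Function.support c = X

end definitions

/-- The group `Sℍ` of the unit quaternions. -/
noncomputable def SH : Subgroup ℍ[ℝ]ˣ where
  carrier := {u | ‖(u : ℍ[ℝ])‖ = 1}
  mul_mem' := by
    intro a b ha hb
    simp only [Set.mem_ofPred_eq, Units.val_mul, norm_mul] at *
    rw [ha, hb, one_mul]
  one_mem' := by simp
  inv_mem' := by
    intro a ha
    simp only [Set.mem_ofPred_eq, Units.val_inv_eq_inv_val, norm_inv] at *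
    rw [ha, inv_one]

/-- The group `⟨-1, p, q, r⟩`. -/
noncomputable def gen (p q r : ℍ[ℝ]) : Subgroup ℍ[ℝ]ˣ :=
  Subgroup.closure {u | (u : ℍ[ℝ]) = -1 ∨ (u : ℍ[ℝ]) = p ∨ (u : ℍ[ℝ]) = q ∨ (u : ℍ[ℝ]) = r}

open Pool.Agent.K3h89.QU in
lemma elem_iff {E : Type*} [DecidableEq E] (C : Submodule ℍ[ℝ] (E → ℍ[ℝ])) (c : E → ℍ[ℝ]) :
    IsElementary C c ↔ Elem C c := by
  constructor
  · rintro ⟨h1, h2, h3⟩
    refine ⟨h1, h2, fun c' hc' hne hsub e he => ?_⟩
    by_contra hh
    refine h3 ⟨c', hc', hne, ⟨fun z hz => hsub z hz, fun hs => ?_⟩⟩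
    exact (hs (show e ∈ Function.support c from he)) hh
  · rintro ⟨h1, h2, h3⟩
    refine ⟨h1, h2, ?_⟩
    rintro ⟨c', hc', hne, hs⟩
    exact hs.2 fun e he => h3 c' hc' hne (fun z hz => hs.1 hz) e he

open Pool.Agent.K3h89.QU in
lemma elS_iff' {E : Type*} [DecidableEq E] (C : Submodule ℍ[ℝ] (E → ℍ[ℝ])) (X : Set E) :
    (∃ c, IsElementary C c ∧ Function.support c = X) ↔ ElS C X := by
  constructor
  · rintro ⟨c, hc, rfl⟩
    exact ⟨c, (elem_iff C c).1 hc, fun e => Iff.rfl⟩
  · rintro ⟨c, hc, hX⟩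
    exact ⟨c, (elem_iff C c).2 hc, Set.ext fun e => hX e⟩

lemma norm_iff (x : ℍ[ℝ]) : ‖x‖ = 1 ↔ normSq x = 1 := by
  rw [Quaternion.normSq_eq_norm_mul_self]
  constructor
  · intro h; rw [h]; norm_num
  · intro h
    have := norm_nonneg x
    nlinarith

open Pool.Agent.K3h89.QU in
lemma quc_of {E : Type*} [DecidableEq E] {C : Submodule ℍ[ℝ] (E → ℍ[ℝ])}
    (h : IsChainGroup SH C) : QUc C := by
  intro B F hF b hb e
  obtain ⟨k, c', hc', hp, heq⟩ := h (F b) ((elem_iff C _).2 (hF.elem hb))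
  have h1 : k * c' b = 1 := by
    have := congrFun heq b
    rw [hF.diag b hb] at this
    exact this.symm
  have hne : c' b ≠ 0 := right_ne_zero_of_mul (by rw [h1]; exact one_ne_zero)
  obtain ⟨g, hg, hgb⟩ := (hp b).resolve_left hne
  have hg1 : ‖c' b‖ = 1 := by rw [← hgb]; exact hg
  have hk : ‖k‖ = 1 := by
    have := congrArg norm h1
    rw [norm_mul, hg1, mul_one, norm_one] at this
    exact this
  have he : F b e = k * c' e := congrFun heq e
  rcases hp e with h2 | ⟨g', hg', h2⟩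
  · left; rw [he, h2, mul_zero]
  · right
    have hg2 : ‖c' e‖ = 1 := by rw [← h2]; exact hg'
    rw [un_iff, ← norm_iff, he, norm_mul, hk, hg2, one_mul]

/-- A matroid is quaternionic unimodular if and only if it is representable over
`(ℍ, ⟨-1, p, q, r⟩)`, whenever `0, 1, p, q, r` are five pairwise distinct points of `ℍ` at mutual
distance one. -/
theorem result (p q r : ℍ[ℝ])
    (hpqr : ∀ i j : Fin 5, i ≠ j → ![0, 1, p, q, r] i ≠ ![0, 1, p, q, r] j ∧
      ‖![0, 1, p, q, r] i - ![0, 1, p, q, r] j‖ = 1)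
    {α : Type u} (M : Matroid α) [M.Finite] :
    IsRepresentable SH M ↔ IsRepresentable (gen p q r) M := by
  classical
  have n1 : ‖p‖ = 1 := by simpa using (hpqr 2 0 (by decide)).2
  have n2 : ‖q‖ = 1 := by simpa using (hpqr 3 0 (by decide)).2
  have n3 : ‖r‖ = 1 := by simpa using (hpqr 4 0 (by decide)).2
  have m1 : ‖1 - p‖ = 1 := by simpa using (hpqr 1 2 (by decide)).2
  have m2 : ‖1 - q‖ = 1 := by simpa using (hpqr 1 3 (by decide)).2
  have m3 : ‖1 - r‖ = 1 := by simpa using (hpqr 1 4 (by decide)).2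
  have k1 : ‖p - q‖ = 1 := by simpa using (hpqr 2 3 (by decide)).2
  have k2 : ‖p - r‖ = 1 := by simpa using (hpqr 2 4 (by decide)).2
  have k3 : ‖q - r‖ = 1 := by simpa using (hpqr 3 4 (by decide)).2
  rw [norm_iff] at n1 n2 n3 m1 m2 m3 k1 k2 k3
  constructor
  · rintro ⟨C, hC, hM⟩
    have : Fintype M.E := M.ground_finite.fintype
    obtain ⟨f, hf⟩ := Pool.Agent.K3h89.QU.exists_tr (p := p) (q := q) (r := r)
      ⟨n1, n2, m1, m2, k1⟩ ⟨n1, n3, m1, m3, k2⟩ ⟨n2, n3, m2, m3, k3⟩
    obtain ⟨C', -, h2, h3⟩ := Pool.Agent.K3h89.QU.represent hf _ C Finset.univ rfl (quc_of hC)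
      (fun c _ e he => absurd (Finset.mem_univ e) he)
    refine ⟨C', fun c hc => h2 c ((elem_iff C' c).1 hc), fun X => ?_⟩
    rw [hM X, elS_iff', elS_iff']
    exact h3 X
  · rintro ⟨C, hC, hM⟩
    refine ⟨C, fun c hc => ?_, hM⟩
    have hle : gen p q r ≤ SH := by
      unfold gen
      rw [Subgroup.closure_le]
      intro u hu
      show ‖(u : ℍ[ℝ])‖ = 1
      rcases hu with hu | hu | hu | hu <;> rw [hu]
      · simp
      · rw [norm_iff]; exact n1
      · rw [norm_iff]; exact n2
      · rw [norm_iff]; exact n3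
    obtain ⟨k, c', hc', hp, heq⟩ := hC c hc
    refine ⟨k, c', hc', fun e => ?_, heq⟩
    rcases hp e with h | ⟨g, hg, h⟩
    · exact Or.inl h
    · exact Or.inr ⟨g, hle hg, h⟩

end Pool.Agent.Results.MP_a9b2cf_co.QUConjecture
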